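import Pool.Agent.W703.OCDefs
import Pool.Agent.Y282.PropAlpha2
import Pool.Agent.Y282.PropAlpha3

set_option autoImplicit false

open Pool.Agent.W703.OC Pool.Agent.Y282.PA

namespace Pool.Agent.Results.MP_5ffaeb_an.DensityNotInherited

universe u v

private theorem closed_range {𝕜 : Type*} [RCLike 𝕜] {V W : Type*} [NormedAddCommGroup V]
    [NormedSpace 𝕜 V] [CompleteSpace V] [NormedAddCommGroup W] [NormedSpace 𝕜 W]
    (I : V →ₗᵢ[𝕜] W) : IsClosed (LinearMap.range I.toLinearMap : Set W) := by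
  have h := I.isometry.isClosedEmbedding.isClosed_range
  have h2 : (LinearMap.range I.toLinearMap : Set W) = Set.range I := rfl
  rw [h2]
  exact h

/-- Over every scalar field `𝕜 = ℝ, ℂ`:

(1) there are Banach spaces `X`, `Y` and a closed subspace `X₁` of `X`, the range of a norm-one
projection, such that the norm-attaining operators are dense in `L(X, Y)` but not in `L(X₁, Y)`;
moreover in this example the norm-attaining operators are dense in `L(X, Z)` for every normed
space `Z`;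

(2) every nonzero Banach space `V` is isometric to a closed subspace `X₁` of a Banach space `X`
which is the range of a norm-one projection of `X` and such that the norm-attaining operators are
dense in `L(X, Z)` for every normed space `Z`. -/
theorem result (𝕜 : Type u) [RCLike 𝕜] :
    (∃ (X : Type u) (_ : NormedAddCommGroup X) (_ : NormedSpace 𝕜 X) (_ : CompleteSpace X)
      (Y : Type u) (_ : NormedAddCommGroup Y) (_ : NormedSpace 𝕜 Y) (_ : CompleteSpace Y)
      (X₁ : Submodule 𝕜 X),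
      OneComplemented X₁ ∧ IsClosed (X₁ : Set X) ∧
      (∀ (Z : Type v) [NormedAddCommGroup Z] [NormedSpace 𝕜 Z], Dense (NA 𝕜 X Z)) ∧
      Dense (NA 𝕜 X Y) ∧ ¬ Dense (NA 𝕜 X₁ Y)) ∧
    (∀ (V : Type u) [NormedAddCommGroup V] [NormedSpace 𝕜 V] [CompleteSpace V] [Nontrivial V],
      ∃ (X : Type u) (_ : NormedAddCommGroup X) (_ : NormedSpace 𝕜 X) (_ : CompleteSpace X)
        (X₁ : Submodule 𝕜 X),
        OneComplemented X₁ ∧ IsClosed (X₁ : Set X) ∧ Nonempty (V ≃ₗᵢ[𝕜] X₁) ∧
        ∀ (Z : Type v) [NormedAddCommGroup Z] [NormedSpace 𝕜 Z], Dense (NA 𝕜 X Z)) := by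
  have main : ∀ (V : Type u) [NormedAddCommGroup V] [NormedSpace 𝕜 V] [CompleteSpace V],
      OneComplemented (LinearMap.range (J 𝕜 V).toLinearMap) := by
    intro V _ _ _
    refine ⟨P 𝕜 V, norm_P_le 𝕜 V, fun x => ⟨P1 𝕜 V x, rfl⟩, ?_⟩
    rintro _ ⟨x, rfl⟩
    change P 𝕜 V (J 𝕜 V x) = J 𝕜 V x
    rw [P_apply, P1_J]
  refine ⟨?_, ?_⟩
  · refine ⟨Pool.Agent.Y282.PA.X 𝕜 (C0 𝕜), inferInstance, inferInstance, inferInstance,
      Pool.Agent.Y282.PA.Y 𝕜, inferInstance, inferInstance, inferInstance,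
      LinearMap.range (J 𝕜 (C0 𝕜)).toLinearMap, main (C0 𝕜), closed_range (J 𝕜 (C0 𝕜)), ?_, ?_, ?_⟩
    · intro Z _ _
      exact dense_NA 𝕜 (C0 𝕜) Z
    · exact dense_NA 𝕜 (C0 𝕜) _
    · intro h
      exact not_dense_c0 𝕜 (dense_NA_of_equiv (J 𝕜 (C0 𝕜)).equivRange h)
  · intro V _ _ _ _
    refine ⟨Pool.Agent.Y282.PA.X 𝕜 V, inferInstance, inferInstance, inferInstance,
      LinearMap.range (J 𝕜 V).toLinearMap, main V, closed_range (J 𝕜 V), ⟨(J 𝕜 V).equivRange⟩, ?_⟩
    intro Z _ _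
    exact dense_NA 𝕜 V Z

end Pool.Agent.Results.MP_5ffaeb_an.DensityNotInherited
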